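import Pool.Agent.MWA.StmtsQ

/-!
Block MWA, row CNP (MP_23468a_al): absorption as identities between words.
-/

namespace Pool.Agent.MWA.H80

open Pool.Agent.Helper14_MV Pool.Agent.Helper2_MV Pool.Agent.MVO Pool.Agent.MWL Pool.Agent.MWS
  Pool.Agent.MWA

theorem word3 (p q r : ℕ) : mw 2 (v3 p q r) =
    List.replicate p 0 ++ 2 :: (List.replicate q 0 ++ 3 :: List.replicate r 0) := by
  simp [mw, asm, v3]

theorem key (trn : Pool.Agent.MWL.TrnStmt) (hap : HapStmt) (n : ℕ) (β : FIC) (hn : 1 ≤ n)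
    (hβ : RR β [0, 0] (List.replicate (n + 2) 0)) (p q r : ℕ) (hp : p = 1 ∨ p = n + 1)
    (hq : q = 1 ∨ q = n + 1) (hr : r = 1 ∨ r = n + 1) :
    L1 β 2 (v3 1 1 1) (v3 p q r) ↔
      ((p ≠ 1 → J3n n β 0) ∧ (q ≠ 1 → J3n n β 1) ∧ (r ≠ 1 → J3n n β 2)) := by
  obtain ⟨hap1, hap2⟩ := hap n β hn hβ
  constructor
  · intro h
    have h1 : ∀ i ≤ 2, 2 ≤ v3 p q r i → AbN n β 2 (v3 1 1 1) i := fun i hi h2 =>
      ((trn n (FC.ofFIC β) 2 (v3 1 1 1) i).1 (v3 p q r) h).2 (hap1 2 (v3 p q r) i hi h2)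
    refine ⟨fun h3 => h1 0 (by omega) ?_, fun h3 => h1 1 (by omega) ?_,
      fun h3 => h1 2 (by omega) ?_⟩
    · show 2 ≤ p
      omega
    · show 2 ≤ q
      omega
    · show 2 ≤ r
      omega
  · rintro ⟨h0, h1, h2⟩
    apply hap2
    have hmod : n + 1 ≡ 1 [MOD n] := by
      unfold Nat.ModEq
      rw [Nat.add_mod_left]
    have aux : ∀ x t : ℕ, (x = 1 ∨ x = n + 1) → (x ≠ 1 → J3n n β t) →
        x = 1 ∨ (2 ≤ x ∧ x ≡ 1 [MOD n] ∧ AbN n β 2 (v3 1 1 1) t) := by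
      intro x t hx ht
      rcases hx with rfl | rfl
      · exact Or.inl rfl
      · exact Or.inr ⟨by omega, hmod, ht (by omega)⟩
    intro i hi
    have hi' : i = 0 ∨ i = 1 ∨ i = 2 := by omega
    rcases hi' with rfl | rfl | rfl
    · exact aux p 0 hp h0
    · exact aux q 1 hq h1
    · exact aux r 2 hr h2

theorem cnp (trn : Pool.Agent.MWL.TrnStmt) (hap : HapStmt) : CnpStmt := by
  intro n β hn hβ
  have hk := key trn hap n β hn hβ
  have hne : n + 1 ≠ 1 := by omega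
  have e0 : ([0, 2, 0, 3, 0] : List ℕ) = mw 2 (v3 1 1 1) := rfl
  refine ⟨?_, ?_, ?_, ?_, ?_, ?_⟩
  · have e2 : mw 1 (ad n (v2 0 2) 0) = List.replicate (2 * n) 0 ++ [2, 0, 0] := by
      simp [mw, asm, ad, v2]

    rw [← e2]
    exact Iff.rfl
  · have h := hk (n + 1) (n + 1) (n + 1) (Or.inr rfl) (Or.inr rfl) (Or.inr rfl)
    have h1 : RR β [0, 2, 0, 3, 0] (List.replicate (n + 1) 0 ++ 2 ::
        (List.replicate (n + 1) 0 ++ 3 :: List.replicate (n + 1) 0)) ↔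
        L1 β 2 (v3 1 1 1) (v3 (n + 1) (n + 1) (n + 1)) := by
      unfold L1
      rw [word3 (n + 1) (n + 1) (n + 1), ← e0]
    rw [h1, h]
    exact ⟨fun h => ⟨h.1 hne, h.2.1 hne, h.2.2 hne⟩,
      fun h => ⟨fun _ => h.1, fun _ => h.2.1, fun _ => h.2.2⟩⟩
  · rintro ⟨h0, -⟩
    have hf : BMap 2 1 (fun t => if t = 0 then 0 else 1) := by
      constructor
      · intro i j hij _
        by_cases hi : i = 0
        · simp [hi]
        · have hj : j ≠ 0 := by omega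
          simp [hi, hj]
      · intro i _
        by_cases hi : i = 0
        · simp [hi]
        · simp [hi]
    have h1 := (trn n (FC.ofFIC β) 2 (v3 1 1 1) 0).2.2.2 1 _ hf (by omega) h0
    have h2 : Ab n (FC.ofFIC β) 1 (psh 2 (fun t => if t = 0 then 0 else 1) (v3 1 1 1)) 0 := h1
    refine ((trn n (FC.ofFIC β) 1 _ 0).2.2.1 (v2 1 2) ?_).1 h2
    intro j hj
    have hj' : j = 0 ∨ j = 1 := by omega
    rcases hj' with rfl | rfl
    · simp [psh, v3, v2, Finset.sum_range_succ]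
    · simp [psh, v3, v2, Finset.sum_range_succ]
  · have h := hk 1 1 (n + 1) (Or.inl rfl) (Or.inl rfl) (Or.inr rfl)
    have h1 : RR β [0, 2, 0, 3, 0] ([0, 2, 0, 3] ++ List.replicate (n + 1) 0) ↔
        L1 β 2 (v3 1 1 1) (v3 1 1 (n + 1)) := by
      unfold L1
      rw [word3 1 1 (n + 1), ← e0]
      exact Iff.rfl
    rw [h1, h]
    exact ⟨fun h => h.2.2 hne, fun h => ⟨fun h' => absurd rfl h', fun h' => absurd rfl h',
      fun _ => h⟩⟩
  · have h := hk (n + 1) 1 1 (Or.inr rfl) (Or.inl rfl) (Or.inl rfl)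
    have h1 : RR β [0, 2, 0, 3, 0] (List.replicate (n + 1) 0 ++ [2, 0, 3, 0]) ↔
        L1 β 2 (v3 1 1 1) (v3 (n + 1) 1 1) := by
      unfold L1
      rw [word3 (n + 1) 1 1, ← e0]
      exact Iff.rfl
    rw [h1, h]
    exact ⟨fun h => h.1 hne, fun h => ⟨fun _ => h, fun h' => absurd rfl h',
      fun h' => absurd rfl h'⟩⟩
  · have h := hk (n + 1) (n + 1) 1 (Or.inr rfl) (Or.inr rfl) (Or.inl rfl)
    have h1 : RR β [0, 2, 0, 3, 0] (List.replicate (n + 1) 0 ++ 2 ::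
        (List.replicate (n + 1) 0 ++ [3, 0])) ↔
        L1 β 2 (v3 1 1 1) (v3 (n + 1) (n + 1) 1) := by
      unfold L1
      rw [word3 (n + 1) (n + 1) 1, ← e0]
      exact Iff.rfl
    rw [h1, h]
    exact ⟨fun h => ⟨h.1 hne, h.2.1 hne⟩, fun h => ⟨fun _ => h.1, fun _ => h.2,
      fun h' => absurd rfl h'⟩⟩

end Pool.Agent.MWA.H80
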